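import Pool.Agent.H348R6.HLSing

/-!
# MP_667be6_lc: `HL (d, σ, κ)` fails at singular cardinals, in particular in `L`

For every infinite `κ` with `2 ^ cf κ < κ` there are regular `κ`-trees, and `HL (d, σ, κ)` fails for
all `d ≥ 1` and all `σ ≥ 2`.  Under GCH (hence in `L`) this covers every singular cardinal, and in
ZFC it covers, e.g., `ℵ_{𝔠 + ω}`.  So the statement that `HL (d, σ, κ)` holds for every uncountable `κ`, all
`1 ≤ d < ω` and all `0 < σ < κ` is refutable in ZFC.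
-/

universe u

open Cardinal Ordinal Set

namespace Pool.Agent.Results.MP_667be6_lc.SingularCardinals

open Pool.Agent.H348R6.HLT

theorem exists_tree {κ : Cardinal.{u}} (hκ : ℵ₀ ≤ κ) (h2 : (2 : Cardinal.{u}) ^ κ.ord.cof < κ) :
    ∃ T, IsRegularTree κ T := by
  obtain ⟨b, hb1, _, hb3⟩ := exists_seq κ
  exact ⟨_, tree_regular hκ h2 hb1 hb3⟩

theorem pow_cof_lt (hGCH : ∀ l : Cardinal.{u}, ℵ₀ ≤ l → (2 : Cardinal.{u}) ^ l = Order.succ l)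
    {κ : Cardinal.{u}} (hκ : ℵ₀ ≤ κ) (hs : ¬ κ.IsRegular) : (2 : Cardinal.{u}) ^ κ.ord.cof < κ := by
  have hμr : κ.ord.cof.IsRegular := Cardinal.isRegular_cof (Cardinal.isSuccLimit_ord hκ)
  have h1 : κ.ord.cof < κ := by
    rcases lt_or_ge κ.ord.cof κ with h | h
    · exact h
    · exact absurd ⟨hκ, h⟩ hs
  rw [hGCH _ hμr.aleph0_le]
  refine lt_of_le_of_ne (Order.succ_le_of_lt h1) fun h => hs ?_
  rw [← h]
  exact Cardinal.isRegular_succ hμr.aleph0_le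

theorem exists_singular : ∃ κ : Cardinal.{u}, ℵ₀ < κ ∧ (2 : Cardinal.{u}) ^ κ.ord.cof < κ := by
  refine ⟨ℵ_ (((2 : Cardinal.{u}) ^ (ℵ₀ : Cardinal.{u})).ord + ω), ?_, ?_⟩
  · rw [← Cardinal.aleph_zero, Cardinal.aleph_lt_aleph]
    exact lt_of_lt_of_le Ordinal.omega0_pos (by simp)
  · have hl : Order.IsSuccLimit (((2 : Cardinal.{u}) ^ (ℵ₀ : Cardinal.{u})).ord + ω) :=
      Ordinal.isSuccLimit_add _ Ordinal.isSuccLimit_omega0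
    rw [Cardinal.ord_aleph, Ordinal.cof_omega hl, Ordinal.cof_add _ Ordinal.omega0_ne_zero,
      Ordinal.cof_omega0]
    refine (Cardinal.le_aleph_ord _).trans_lt ?_
    rw [Cardinal.aleph_lt_aleph]
    exact lt_add_of_pos_right _ Ordinal.omega0_pos

/-- (1) For every infinite `κ` with `2 ^ cf κ < κ` there are regular `κ`-trees and `HL (d, σ, κ)`
fails for all `d ≥ 1`, `σ ≥ 2`.
(2) Under GCH, `HL (d, σ, κ)` fails for all singular `κ` and all `d ≥ 1`, `σ ≥ 2`.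
(3) It is not the case that `HL (d, σ, κ)` holds for all uncountable `κ`, `d ≥ 1`, `0 < σ < κ`;
indeed `HL (1, 2, κ)` fails for some uncountable `κ`.
(4) If `κ` is singular and there is a regular `κ`-tree, then `HL (d, σ, κ)` fails for all `d ≥ 1`
and `cf κ ≤ σ < κ`. -/
theorem result :
    (∀ κ : Cardinal.{u}, ℵ₀ ≤ κ → (2 : Cardinal.{u}) ^ κ.ord.cof < κ →
      (∃ T, IsRegularTree κ T) ∧
      ∀ (d : ℕ) (σ : Cardinal.{u}), 1 ≤ d → 2 ≤ σ → ¬ HL d σ κ) ∧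
    ((∀ l : Cardinal.{u}, ℵ₀ ≤ l → (2 : Cardinal.{u}) ^ l = Order.succ l) →
      ∀ κ : Cardinal.{u}, ℵ₀ ≤ κ → ¬ κ.IsRegular →
        (∃ T, IsRegularTree κ T) ∧
        ∀ (d : ℕ) (σ : Cardinal.{u}), 1 ≤ d → 2 ≤ σ → ¬ HL d σ κ) ∧
    (∃ κ : Cardinal.{u}, ℵ₀ < κ ∧ ¬ HL 1 2 κ) ∧
    (¬ ∀ (κ : Cardinal.{u}) (d : ℕ) (σ : Cardinal.{u}), ℵ₀ < κ → 1 ≤ d → 0 < σ → σ < κ →
      HL d σ κ) ∧
    (∀ κ : Cardinal.{u}, ℵ₀ ≤ κ → ¬ κ.IsRegular → (∃ T, IsRegularTree κ T) →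
      ∀ (d : ℕ) (σ : Cardinal.{u}), 1 ≤ d → κ.ord.cof ≤ σ → σ < κ → ¬ HL d σ κ) := by
  have h1 : ∀ κ : Cardinal.{u}, ℵ₀ ≤ κ → (2 : Cardinal.{u}) ^ κ.ord.cof < κ →
      (∃ T, IsRegularTree κ T) ∧
      ∀ (d : ℕ) (σ : Cardinal.{u}), 1 ≤ d → 2 ≤ σ → ¬ HL d σ κ :=
    fun κ hκ h2 => ⟨exists_tree hκ h2, fun d σ hd hσ => not_HL_singular hκ h2 hd hσ⟩
  obtain ⟨κ, hκ, hκ2⟩ := exists_singular.{u}
  have h3 : ¬ HL 1 2 κ := (h1 κ hκ.le hκ2).2 1 2 le_rfl le_rfl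
  refine ⟨h1, fun hGCH κ hκ hs => h1 κ hκ (pow_cof_lt hGCH hκ hs), ⟨κ, hκ, h3⟩, fun H => ?_,
    fun κ hκ _ hT d σ hd hσ _ => ?_⟩
  · exact h3 (H κ 1 2 hκ le_rfl two_pos ((Cardinal.natCast_lt_aleph0 (n := 2)).trans hκ))
  · obtain ⟨T, hT⟩ := hT
    exact not_HL_level hκ hT hd hσ

end Pool.Agent.Results.MP_667be6_lc.SingularCardinals
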